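import Pool.Agent.H671R2.OrdFinal

/-!
# Finding Type-A vertex orders is NP-hard

The reduction is from satisfiability.  A literal is represented by a vertex, two complementary
literals are adjacent; a clause by a vertex with a triangle and one leaf for each of its literals;
a leaf and its literal are joined by an OR gadget: a complete graph on four vertices and one more
vertex, all of degree four.  Finally a complete graph on four vertices is attached to every vertex,
which makes the two types of orders equivalent.
-/

namespace Pool.Agent.Results.MP_c8d28d_lc.FindANPHard

open Pool.Agent.NPC Pool.Agent.H671R2.Ord

/-- **Finding Type-A orders.** There is a polynomial-time algorithm which, given any graph that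
has at least one Type-A order, outputs a Type-A order of it, if and only if `P = NP`. -/
theorem result : FindableA ↔ PEqNP := findableA_iff

end Pool.Agent.Results.MP_c8d28d_lc.FindANPHard
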